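import Pool.Agent.Lib.MP_ddf912_lc.Defs
import Pool.Agent.Lib.helper82.Parse

namespace Pool.Agent.Lib.MP_ddf912_lc

open Turing N487b59b3 N68a2faeb Pool.Agent.Lib.helper82

theorem ptMem {α β : Type} [Enc α] [Enc β] [Inhabited β] {x : α → β} {f : α → List β}
    {i : ∀ a, Decidable (x a ∈ f a)} (hx : PT x) (hf : PT f) :
    PT fun a => @decide (x a ∈ f a) (i a) := by
  classical
  exact (PT.mem hx hf).congr fun a => by congr

theorem computable_pow {f : ℕ → ℕ} (hf : Computable f) : ∀ c : ℕ, Computable fun k => f k ^ c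
  | 0 => (Computable.const 1).of_eq fun _ => by simp
  | c + 1 => (Primrec.nat_mul.to_comp.comp (computable_pow hf c) hf).of_eq fun _ => by
      rw [pow_succ]

theorem computable_two_pow {f : ℕ → ℕ} (hf : Computable f) : Computable fun k => 2 ^ f k := by
  have h : Primrec fun n : ℕ => 2 ^ n :=
    (Primrec.nat_rec₁ 1 (Primrec.nat_mul.comp₂ Primrec₂.right (Primrec₂.const 2))).of_eq
      fun n => by
        induction n with
        | zero => rfl
        | succ n ih => simp only [ih, pow_succ]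
  exact h.to_comp.comp hf

theorem computable_add {f g : ℕ → ℕ} (hf : Computable f) (hg : Computable g) :
    Computable fun k => f k + g k := Primrec.nat_add.to_comp.comp hf hg

theorem computable_mul {f g : ℕ → ℕ} (hf : Computable f) (hg : Computable g) :
    Computable fun k => f k * g k := Primrec.nat_mul.to_comp.comp hf hg

theorem exists_envelope {f : ℕ → ℕ} (hf : Computable f) :
    ∃ F : ℕ → ℕ, Computable F ∧ ∀ i j, i ≤ j → f i ≤ F j := by
  refine ⟨fun n => Nat.rec (f 0) (fun i s => s + f (i + 1)) n, ?_, ?_⟩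
  · exact Computable.nat_rec Computable.id (Computable.const (f 0))
      (Primrec.nat_add.to_comp.comp (Computable.snd.comp Computable.snd)
        (hf.comp (Computable.succ.comp (Computable.fst.comp Computable.snd)))).to₂
  · intro i j hij
    induction j with
    | zero => obtain rfl : i = 0 := by omega
              exact le_rfl
    | succ j ih =>
      rcases Nat.lt_or_eq_of_le hij with h | rfl
      · exact (ih (by omega)).trans (Nat.le_add_right _ _)
      · exact Nat.le_add_left _ _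

/-- A flagged polynomial time simulation of an fpt computable map. -/
theorem FptTime.sim {κ : List Bool → ℕ} {R : List Bool → List Bool} (h : FptTime κ R) :
    ∃ (sim : List Bool × List Bool → Bool × List Bool) (f : ℕ → ℕ) (c : ℕ), PT sim ∧
      Computable f ∧ ∀ x clock, (f (κ x) * (x.length + 1) ^ c ≤ clock.length →
        (sim (x, clock)).1 = true) ∧ ((sim (x, clock)).1 = true → (sim (x, clock)).2 = R x) := by
  obtain ⟨M, f, c, hf, h⟩ := h
  obtain ⟨sim, h1, h2⟩ := exists_sim_flag M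
  exact ⟨sim, f, c, h1, hf, fun x clock => h2 x (R x) clock _ (h x)⟩

theorem fptTime_id (κ : List Bool → ℕ) : FptTime κ fun x => x := by
  obtain ⟨h⟩ := PTR.toTM2 (ea := fun x : List Bool => x) (eb := fun x : List Bool => x)
    (F := fun x => x) PTR.id
  obtain ⟨e, he⟩ := poly_le_pow h.time
  refine ⟨h.toTM2ComputableAux, fun _ => 2 ^ e, e, Computable.const _, fun x => ?_⟩
  obtain ⟨h1, h2⟩ := h.outputsFun x
  refine ⟨⟨h1, h2.trans ?_⟩⟩
  refine (eval_mono _ (show x.length ≤ 2 * (x.length + 1) by omega)).trans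
    ((he _ (by omega)).trans ?_)
  rw [mul_pow]

theorem fptRed_refl (A : PProb) : FptRed A A :=
  ⟨fun x => x, fun k => k, fptTime_id _, Computable.id, fun _ => ⟨Iff.rfl, le_rfl⟩⟩

/-- Sound polynomial time refutations with fpt size proofs. -/
def SP (A : PProb) : Prop :=
  ∃ (V : List Bool × List Bool → Bool) (h : ℕ → ℕ) (c : ℕ), PT V ∧ Computable h ∧
    (∀ x w, V (x, w) = true → x ∉ A.Q) ∧
    ∀ x, x ∉ A.Q → ∃ w : List Bool, w.length ≤ h (A.κ x) * (x.length + 1) ^ c ∧ V (x, w) = true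

theorem SP.paraNP {A : PProb} (h : SP A) (hκ : IsPolyTime A.κ) : (⟨A.Qᶜ, A.κ⟩ : PProb) ∈ ParaNP := by
  obtain ⟨V, h, c, h1, h2, h3, h4⟩ := h
  exact ⟨hκ, V, h, c, h1.isPolyTime, h2, fun x =>
    ⟨h4 x, fun ⟨w, _, hw⟩ => h3 x w hw⟩⟩

theorem SP.of_red {A B : PProb} (hB : SP B) (hr : FptRed A B) : SP A := by
  obtain ⟨V, h, c, hV, hh, hs, hc⟩ := hB
  obtain ⟨R, g, hR, hg, hr⟩ := hr
  obtain ⟨sim, f, e, hsim, hf, hsim'⟩ := hR.sim
  obtain ⟨H, hH, hH'⟩ := exists_envelope hh
  obtain ⟨p, hp, ep⟩ := (Prs.list Prs.bool).prod (Prs.list Prs.bool)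
  obtain ⟨q, hq⟩ := hsim.sz_bd
  have h1 : PT fun a : List Bool × List Bool => sim (a.1, (p a.2).1) :=
    PT.comp hsim (PT.pair PT.fst' (PT.fst (PT.comp hp PT.snd')))
  have hb : Bd (fun z => z) fun z => 6 * z + 1 + 3 * (z * (q.eval (9 * z + 1) + 1) ^ c) :=
    (((Bd.const 6).mul Bd.self).add (Bd.const 1)).add ((Bd.const 3).mul (Bd.self.mul
      ((((((Bd.const 9).mul Bd.self).add (Bd.const 1)).eval q).add (Bd.const 1)).pow c)))
  obtain ⟨D, hD⟩ := hb.le_pow
  refine ⟨fun a => (sim (a.1, (p a.2).1)).1 && V ((sim (a.1, (p a.2).1)).2, (p a.2).2),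
    fun k => (f k + H (g k) + 2) ^ D, (e + 1) * D,
    PT.and (PT.fst h1) (PT.comp hV (PT.pair (PT.snd h1) (PT.snd (PT.comp hp PT.snd')))),
    computable_pow (computable_add (computable_add hf (hH.comp hg)) (Computable.const 2)) D,
    ?_, ?_⟩
  · intro x w hw
    simp only [Bool.and_eq_true] at hw
    rw [(hr x).1, ← (hsim' x _).2 hw.1]
    exact hs _ _ hw.2
  · intro x hx
    obtain ⟨w, hw1, hw2⟩ := hc (R x) (by rwa [← (hr x).1])
    set T := f (A.κ x) * (x.length + 1) ^ e with hT
    have h2 := (hsim' x (List.replicate T true)).1 (by simp [hT])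
    have h3 := (hsim' x (List.replicate T true)).2 h2
    refine ⟨enc (List.replicate T true, w), ?_, by simp only [ep, h2, h3, hw2, Bool.and_self]⟩
    set z := (f (A.κ x) + H (g (A.κ x)) + 2) * (x.length + 1) ^ (e + 1) with hz
    have hpos : 1 ≤ (x.length + 1) ^ e := Nat.one_le_pow _ _ (by omega)
    have hz1 : T ≤ z := Nat.mul_le_mul (by omega) (Nat.pow_le_pow_right (by omega) (by omega))
    have hz2 : x.length + 1 ≤ (x.length + 1) ^ (e + 1) := Nat.le_self_pow (by omega) _
    have hz3 : x.length ≤ z ∧ 2 ≤ z ∧ H (g (A.κ x)) ≤ z := by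
      refine ⟨?_, ?_, ?_⟩ <;> nlinarith
    have h4 : (R x).length ≤ q.eval (9 * z + 1) := by
      have h5 := hq (x, List.replicate T true)
      have h6 : sz (sim (x, List.replicate T true)) = 2 * 1 + 1 + 3 * (R x).length := by
        rw [← h3, ← PT.sz_listBool]
        exact sz_prod (sim (x, List.replicate T true)).1 (sim (x, List.replicate T true)).2
      have h7 := eval_mono q (show sz (x, List.replicate T true) ≤ 9 * z + 1 by
        rw [sz_prod, PT.sz_listBool, PT.sz_listBool, List.length_replicate]; omega)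
      simp only at h5
      omega
    have h5 : w.length ≤ z * (q.eval (9 * z + 1) + 1) ^ c :=
      hw1.trans (Nat.mul_le_mul ((hH' _ _ (hr x).2).trans hz3.2.2)
        (Nat.pow_le_pow_left (by omega) _))
    have h6 := hD z hz3.2.1
    change sz (List.replicate T true, w) ≤ _
    rw [sz_prod, PT.sz_listBool, PT.sz_listBool, List.length_replicate, pow_mul, ← mul_pow, ← hz]
    omega

theorem mem_coded {α : Type} [Enc α] (yes : α → Prop) (κ : α → ℕ) (a : α) :
    enc a ∈ (coded yes κ).Q ↔ yes a :=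
  ⟨fun ⟨b, h1, h2⟩ => by rwa [← enc_injective h1], fun h => ⟨a, rfl, h⟩⟩

theorem κ_coded {α : Type} [Enc α] (yes : α → Prop) (κ : α → ℕ) (a : α) :
    (coded yes κ).κ (enc a) = κ a := enc_injective.extend_apply κ (fun _ => 0) a

theorem prs_inst : Prs (List ℕ × List (ℕ × ℕ) × ℕ) :=
  (Prs.list Prs.nat).prod ((Prs.list (Prs.nat.prod Prs.nat)).prod Prs.nat)

theorem prs_cnf : Prs CNF := Prs.list (Prs.list (Prs.nat.prod Prs.bool))

theorem clique_mem_W1 : pClique ∈ W1 :=
  ⟨(prs_inst.extend (PT.snd PT.snd') 0).isPolyTime, fptRed_refl _⟩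

def vars (φ : CNF) : List ℕ := (φ.flatten.map Prod.fst).dedup

theorem length_vars (φ : CNF) : (vars φ).length = nvars φ := by
  rw [vars, nvars, List.card_toFinset]

theorem vars_pt : PT vars :=
  PT.dedup (PT.map (F := fun _ (l : ℕ × Bool) => l.1) (PT.flatten PT.id) (PT.fst PT.snd'))

theorem two_le_sz {φ : CNF} (h : nvars φ ≠ 0) : 2 ≤ sz φ := by
  by_contra hlt
  apply h
  rcases φ with _ | ⟨C, φ⟩
  · simp [nvars]
  · rw [sz_cons] at hlt
    have h1 : C = [] := List.eq_nil_of_length_eq_zero (by have := length_le_sz C; omega)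
    have h2 : φ = [] := List.eq_nil_of_length_eq_zero (by have := length_le_sz φ; omega)
    simp [nvars, h1, h2]

theorem lt_ceil_iff {n m : ℕ} (hm : 2 ≤ m) (k : ℕ) :
    k < ⌈(n : ℝ) / Real.logb 2 m⌉₊ ↔ m ^ k < 2 ^ n := by
  have h1 : (1 : ℝ) < m := by exact_mod_cast hm
  have hl : 0 < Real.logb 2 m := Real.logb_pos (by norm_num) h1
  rw [Nat.lt_ceil, lt_div_iff₀ hl, ← Real.logb_pow,
    Real.logb_lt_iff_lt_rpow (by norm_num) (by positivity), Real.rpow_natCast]
  exact_mod_cast Iff.rfl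

theorem cnt_fold (m N : ℕ) (c : ℕ) (hc : ∀ k, k < c ↔ m ^ k < N) : ∀ (l : List ℕ),
    l.foldl (fun (s : ℕ × ℕ) _ => (s.1 * m, if s.1 < N then s.2 + 1 else s.2)) (1, 0) =
      (m ^ l.length, min l.length c) := by
  intro l
  induction l using List.reverseRecOn with
  | nil => simp
  | append_singleton l a ih =>
    rw [List.foldl_append, ih]
    simp only [List.foldl_cons, List.foldl_nil, List.length_append, List.length_singleton,
      ← hc, pow_succ]
    congr 1
    split_ifs <;> omega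

theorem logParam_pt : PT fun φ : CNF => ⌈(nvars φ : ℝ) / Real.logb 2 (bitEncode φ).length⌉₊ := by
  have hm : PT fun φ : CNF => (enc φ).length := PT.length PT.encList
  have hN : PT fun φ : CNF => 2 ^ (vars φ).length := PT.powU (PT.const 2) vars_pt
  have hf : PT fun p : CNF × (ℕ × ℕ) × ℕ => p.1 := PT.fst'
  have h := PT.foldl_add (h := fun (φ : CNF) (s : ℕ × ℕ) (_ : ℕ) =>
      (s.1 * (enc φ).length, if s.1 < 2 ^ (vars φ).length then s.2 + 1 else s.2)) vars_pt
    (PT.const (1, 0)) (PT.pair (PT.mul (PT.fst (PT.fst PT.snd')) (PT.comp hm hf :))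
      (PT.ite (PT.lt (PT.fst (PT.fst PT.snd')) (PT.comp hN hf :))
        (PT.succ (PT.snd (PT.fst PT.snd'))) (PT.snd (PT.fst PT.snd'))))
    (fun φ => 2 * sz (enc φ).length + 2) (((Bd.const 2).mul hm.sz_bd).add (Bd.const 2)) (by
      rintro φ ⟨a, b⟩ _ _
      have h1 := PT.sz_mul_le a (enc φ).length
      have h2 := PT.sz_add_le b 1
      have h3 : sz (1 : ℕ) = 1 := by rw [sz_nat]; rfl
      simp only [sz_prod]
      split_ifs <;> omega)
  refine (PT.snd h).congr fun φ => ?_
  by_cases h0 : nvars φ = 0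
  · have : vars φ = [] := List.eq_nil_of_length_eq_zero (by rw [length_vars, h0])
    simp [this, h0]
  · have hm := two_le_sz h0
    rw [cnt_fold _ _ _ (fun k => lt_ceil_iff hm k), length_vars]
    refine min_eq_right (Nat.le_of_not_lt fun hlt => ?_)
    rw [lt_ceil_iff hm] at hlt
    exact absurd (Nat.pow_le_pow_left hm (nvars φ)) (by simpa using hlt)

theorem logSat_mem_M1 {d : ℕ} (hd : 1 ≤ d) : pLogSat d ∈ M1 := by
  simp only [M1, Set.mem_iUnion]
  exact ⟨d, hd, (prs_cnf.extend logParam_pt 0).isPolyTime, fptRed_refl _⟩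

theorem nvars_le {φ : CNF} {g j : ℕ}
    (h : ⌈(nvars φ : ℝ) / Real.logb 2 (bitEncode φ).length⌉₊ ≤ g) (hj : sz φ ≤ 2 ^ j) :
    nvars φ ≤ g * j := by
  by_cases h0 : nvars φ = 0
  · omega
  have hm := two_le_sz h0
  have h1 := (lt_ceil_iff (n := nvars φ) hm g).not.1 (by simpa using h)
  have h2 : sz φ ^ g ≤ 2 ^ (g * j) := by
    rw [mul_comm, pow_mul]; exact Nat.pow_le_pow_left hj g
  exact (Nat.pow_le_pow_iff_right (by norm_num)).1 ((Nat.le_of_not_lt h1).trans h2)

end Pool.Agent.Lib.MP_ddf912_lc
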