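import Pool.Prelude.Def_H_3587d628

namespace Pool.Agent.Lib.MP_ddf912_lc

open Turing N487b59b3 N68a2faeb

/-- A set of bit strings with a parameter function. -/
structure PProb where
  Q : Set (List Bool)
  κ : List Bool → ℕ

/-- `R x` is computed from `x` in at most `f (κ x) * (|x| + 1) ^ c` steps, `f` computable. -/
def FptTime (κ : List Bool → ℕ) (R : List Bool → List Bool) : Prop :=
  ∃ (M : TM2ComputableAux Bool Bool) (f : ℕ → ℕ) (c : ℕ), Computable f ∧ ∀ x,
    Nonempty (TM2OutputsInTime M.tm (x.map M.inputAlphabet.invFun)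
      (some ((R x).map M.outputAlphabet.invFun)) (f (κ x) * (x.length + 1) ^ c))

/-- Many-one fpt-reductions. -/
def FptRed (A B : PProb) : Prop :=
  ∃ (R : List Bool → List Bool) (g : ℕ → ℕ), FptTime A.κ R ∧ Computable g ∧
    ∀ x, (x ∈ A.Q ↔ R x ∈ B.Q) ∧ B.κ (R x) ≤ g (A.κ x)

/-- The parameterized problems that reduce to `B`. -/
def Below (B : PProb) : Set PProb := {A | IsPolyTime A.κ ∧ FptRed A B}

/-- The problem whose instances are the encodings of elements of `α`. -/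
noncomputable def coded {α : Type} [N487b59b3 α] (yes : α → Prop) (κ : α → ℕ) : PProb :=
  ⟨{x | ∃ a, bitEncode a = x ∧ yes a}, Function.extend bitEncode κ fun _ => 0⟩

/-- Instances: vertex list, edge list, `k`. -/
noncomputable def pClique : PProb :=
  coded (fun I : List ℕ × List (ℕ × ℕ) × ℕ => ∃ S : Finset ℕ, (∀ v ∈ S, v ∈ I.1) ∧
    (SimpleGraph.fromRel fun u v => (u, v) ∈ I.2.1).IsNClique I.2.2 S) fun I => I.2.2

abbrev CNF := List (List (ℕ × Bool))

def Sat (φ : CNF) : Prop := ∃ a : ℕ → Bool, ∀ C ∈ φ, ∃ l ∈ C, a l.1 = l.2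

def Width (d : ℕ) (φ : CNF) : Prop := ∀ C ∈ φ, C.length ≤ d

def nvars (φ : CNF) : ℕ := (φ.flatten.map Prod.fst).toFinset.card

noncomputable def pLogSat (d : ℕ) : PProb :=
  coded (fun φ : CNF => Width d φ ∧ Sat φ) fun φ =>
    ⌈(nvars φ : ℝ) / Real.logb 2 (bitEncode φ).length⌉₊

def W1 : Set PProb := Below pClique

def M1 : Set PProb := ⋃ d ≥ 1, Below (pLogSat d)

/-- Nondeterministic fixed parameter time, in verifier form. -/
def ParaNP : Set PProb :=
  {A | IsPolyTime A.κ ∧ ∃ (V : List Bool × List Bool → Bool) (f : ℕ → ℕ) (c : ℕ),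
    IsPolyTime V ∧ Computable f ∧
      ∀ x, x ∈ A.Q ↔ ∃ w : List Bool, w.length ≤ f (A.κ x) * (x.length + 1) ^ c ∧ V (x, w) = true}

end Pool.Agent.Lib.MP_ddf912_lc
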