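import Pool.Agent.Lib.MP_ddf912_lc.Basic

namespace Pool.Agent.Lib.MP_ddf912_lc

open Turing N487b59b3 N68a2faeb Pool.Agent.Lib.helper82

def rank (φ : CNF) (v : ℕ) : ℕ := ((vars φ).filter fun u => decide (u < v)).length

def canon (φ : CNF) : CNF := φ.map fun C => C.map fun l => (rank φ l.1, l.2)

theorem mem_vars {φ : CNF} {C : List (ℕ × Bool)} {l : ℕ × Bool} (hC : C ∈ φ) (hl : l ∈ C) :
    l.1 ∈ vars φ := by
  simp only [vars, List.mem_dedup, List.mem_map, List.mem_flatten]
  exact ⟨l, ⟨C, hC, hl⟩, rfl⟩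

theorem length_filter_lt {α : Type} {p q : α → Bool} (h : ∀ a, p a = true → q a = true)
    {l : List α} {v : α} (hv : v ∈ l) (h1 : p v = false) (h2 : q v = true) :
    (l.filter p).length < (l.filter q).length := by
  have hs : (l.filter p).Sublist (l.filter q) := List.monotone_filter_right l h
  refine lt_of_le_of_ne hs.length_le fun e => ?_
  have := hs.eq_of_length e
  have h3 : v ∈ l.filter q := List.mem_filter.2 ⟨hv, h2⟩
  rw [← this, List.mem_filter, h1] at h3
  simp at h3

theorem rank_lt {φ : CNF} {v : ℕ} (hv : v ∈ vars φ) : rank φ v < nvars φ := by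
  have := length_filter_lt (p := fun u => decide (u < v)) (q := fun _ => true) (by simp) hv
    (by simp) rfl
  rwa [List.filter_true, length_vars] at this

theorem rank_lt_rank {φ : CNF} {u v : ℕ} (hu : u ∈ vars φ) (h : u < v) : rank φ u < rank φ v :=
  length_filter_lt (fun a ha => by simp at ha ⊢; omega) hu (by simp) (by simpa using h)

theorem rank_inj {φ : CNF} {u v : ℕ} (hu : u ∈ vars φ) (hv : v ∈ vars φ)
    (h : rank φ u = rank φ v) : u = v := by
  rcases lt_trichotomy u v with h1 | h1 | h1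
  · have := rank_lt_rank hu h1; omega
  · exact h1
  · have := rank_lt_rank hv h1; omega

theorem sat_canon (φ : CNF) : Sat (canon φ) ↔ Sat φ := by
  classical
  constructor
  · rintro ⟨a, ha⟩
    refine ⟨fun v => a (rank φ v), fun C hC => ?_⟩
    obtain ⟨l, hl, e⟩ := ha _ (List.mem_map_of_mem hC)
    obtain ⟨l', hl', rfl⟩ := List.mem_map.1 hl
    exact ⟨l', hl', e⟩
  · rintro ⟨a, ha⟩
    refine ⟨fun i => decide (∃ v ∈ vars φ, rank φ v = i ∧ a v = true), fun C hC => ?_⟩
    obtain ⟨C', hC', rfl⟩ := List.mem_map.1 hC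
    obtain ⟨l, hl, e⟩ := ha C' hC'
    refine ⟨_, List.mem_map_of_mem hl, ?_⟩
    have hv := mem_vars hC' hl
    rw [← e, Bool.eq_iff_iff]
    simp only [decide_eq_true_eq]
    constructor
    · rintro ⟨v, h1, h2, h3⟩
      rwa [← rank_inj h1 hv h2]
    · exact fun h => ⟨_, hv, rfl, h⟩

theorem canon_pt : PT canon := by
  have h1 : PT fun p : CNF × ℕ => rank p.1 p.2 :=
    PT.length (PT.filter (P := fun (p : CNF × ℕ) u => decide (u < p.2))
      (PT.comp vars_pt PT.fst') (PT.lt PT.snd' (PT.snd PT.fst')))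
  have h3 : PT fun p : (CNF × List (ℕ × Bool)) × (ℕ × Bool) => (p.1.1, p.2.1) :=
    PT.pair (PT.fst PT.fst') (PT.fst PT.snd')
  have h2 : PT fun p : (CNF × List (ℕ × Bool)) × (ℕ × Bool) => (rank p.1.1 p.2.1, p.2.2) :=
    PT.pair (PT.comp h1 h3 :) (PT.snd PT.snd')
  exact PT.map (F := fun φ (C : List (ℕ × Bool)) => C.map fun l => (rank φ l.1, l.2)) PT.id
    (PT.map (F := fun (p : CNF × List (ℕ × Bool)) (l : ℕ × Bool) => (rank p.1 l.1, l.2))
      PT.snd' h2)

theorem exists_le (d : ℕ) : ∃ le : List Bool × List Bool → Bool, PT le ∧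
    (∀ y y', le (y, y') = true → y' ∉ (pLogSat d).Q → y ∉ (pLogSat d).Q) ∧
    ∀ n₀, ∃ lab : List Bool → Bool × Set (Fin d → Option (Fin n₀ × Bool)), ∀ y y',
      (∀ φ : CNF, enc φ = y' → nvars φ ≤ n₀) → lab y = lab y' → le (y, y') = true := by
  obtain ⟨p, hp, ep⟩ := prs_cnf
  let valid : List Bool → Bool := fun y =>
    decide (enc (p y) = y) && (p y).all fun C => decide (C.length ≤ d)
  have hvalid : PT valid := PT.and (PT.eq (PT.comp PT.encList hp) PT.id)
    (PT.all (P := fun _ (C : List (ℕ × Bool)) => decide (C.length ≤ d)) hp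
      (PT.le (PT.length PT.snd') (PT.const d)))
  have hv : ∀ y, valid y = true ↔ enc (p y) = y ∧ Width d (p y) := by
    intro y; simp [valid, Width]
  have hc : PT fun y => canon (p y) := PT.comp canon_pt hp
  have hf : PT fun a : (List Bool × List Bool) × List (ℕ × Bool) => a.1.1 := PT.fst PT.fst'
  have hs : PT fun a : List Bool × List Bool => a.2 := PT.snd'
  refine ⟨fun a => !valid a.1 || (valid a.2 &&
      (canon (p a.2)).all fun C => decide (C ∈ canon (p a.1))),
    PT.or (PT.not (PT.comp hvalid PT.fst')) (PT.and (PT.comp hvalid PT.snd')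
      (PT.all (P := fun (a : List Bool × List Bool) C => decide (C ∈ canon (p a.1)))
        (PT.comp hc hs :) (ptMem PT.snd' (PT.comp hc hf :)))), ?_, ?_⟩
  · rintro y y' h h' ⟨φ, rfl, hw, hs⟩
    have e : bitEncode φ = enc φ := rfl
    have h1 : valid (enc φ) = true := (hv _).2 (by rw [ep]; exact ⟨rfl, hw⟩)
    simp only [e, h1, ep, Bool.not_true, Bool.false_or, Bool.and_eq_true, List.all_eq_true,
      decide_eq_true_eq, hv] at h
    obtain ⟨⟨h2, h3⟩, h4⟩ := h
    refine h' ⟨p y', h2, h3, (sat_canon _).1 ?_⟩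
    obtain ⟨a, ha⟩ := (sat_canon _).2 hs
    exact ⟨a, fun C hC => ha C (h4 C hC)⟩
  · intro n₀
    refine ⟨fun y => (valid y, {t | ∃ C ∈ canon (p y), ∀ i : Fin d,
      C[i.val]? = (t i).map fun a => (a.1.val, a.2)}), fun y y' hn h => ?_⟩
    simp only [Prod.mk.injEq] at h
    obtain ⟨h1, h2⟩ := h
    cases h3 : valid y
    · simp [h3]
    have h4 : valid y' = true := h1 ▸ h3
    simp only [h3, h4, Bool.not_true, Bool.false_or, Bool.true_and, List.all_eq_true,
      decide_eq_true_eq]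
    intro C' hC'
    obtain ⟨h5, h6⟩ := (hv _).1 h4
    obtain ⟨-, h7⟩ := (hv _).1 h3
    have hn' := hn _ h5
    have hlt : ∀ l ∈ C', l.1 < n₀ := by
      obtain ⟨D, hD, rfl⟩ := List.mem_map.1 hC'
      intro l hl
      obtain ⟨l', hl', rfl⟩ := List.mem_map.1 hl
      exact (rank_lt (mem_vars hD hl')).trans_le hn'
    have hlen : ∀ z, Width d (p z) → ∀ C ∈ canon (p z), C.length ≤ d := by
      intro z hz C hC
      obtain ⟨D, hD, rfl⟩ := List.mem_map.1 hC
      simpa using hz D hD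
    let t : Fin d → Option (Fin n₀ × Bool) := fun i =>
      (C'[i.val]?).bind fun l => if h : l.1 < n₀ then some (⟨l.1, h⟩, l.2) else none
    have ht : ∀ i : Fin d, C'[i.val]? = (t i).map fun a => (a.1.val, a.2) := by
      intro i
      rcases e : C'[i.val]? with _ | l
      · simp [t, e]
      · simp [t, e, hlt l (List.mem_of_getElem? e)]
    have h8 : t ∈ {t : Fin d → Option (Fin n₀ × Bool) | ∃ C ∈ canon (p y), ∀ i : Fin d,
        C[i.val]? = (t i).map fun a => (a.1.val, a.2)} := by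
      rw [h2]; exact ⟨C', hC', ht⟩
    obtain ⟨C, hC, hCt⟩ := h8
    have : C = C' := by
      apply List.ext_getElem?
      intro i
      by_cases hi : i < d
      · exact (hCt ⟨i, hi⟩).trans (ht ⟨i, hi⟩).symm
      · rw [List.getElem?_eq_none (by have := hlen y h7 C hC; omega),
          List.getElem?_eq_none (by have := hlen y' h6 C' hC'; omega)]
    exact this ▸ hC

theorem card_labels (d n₀ : ℕ) :
    Fintype.card (Bool × Set (Fin d → Option (Fin n₀ × Bool))) = 2 ^ ((2 * n₀ + 1) ^ d + 1) := by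
  simp [pow_succ', mul_comm]

theorem exists_pow_bound (d : ℕ) : ∃ K, ∀ j : ℕ, j ^ (d + 1) ≤ K * 2 ^ j := by
  refine ⟨(d + 1).factorial * 2 ^ (d + 1), fun j => ?_⟩
  have h1 : j ^ (d + 1) ≤ (j + 1).ascFactorial (d + 1) :=
    (Nat.pow_le_pow_left (Nat.le_succ j) _).trans (Nat.pow_succ_le_ascFactorial _ _)
  rw [Nat.ascFactorial_eq_factorial_mul_choose] at h1
  have h2 : (j + (d + 1)).choose (d + 1) ≤ 2 ^ (j + (d + 1)) := Nat.choose_le_two_pow _ _
  calc j ^ (d + 1) ≤ (d + 1).factorial * 2 ^ (j + (d + 1)) := h1.trans (Nat.mul_le_mul_left _ h2)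
    _ = _ := by ring

end Pool.Agent.Lib.MP_ddf912_lc
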