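import Pool.Agent.Lib.MP_ddf912_lc.System

namespace Pool.Agent.Lib.MP_ddf912_lc

open Turing N487b59b3 N68a2faeb Pool.Agent.Lib.helper82

attribute [local irreducible] tag

def un (I : Inst) (S : List (List ℕ)) : Inst :=
  (S.flatMap fun Y => Y.map fun v => tag true (Y, v),
    S.flatMap fun Y => I.2.1.map fun e => (tag true (Y, e.1), tag true (Y, e.2)), I.2.2)

theorem un_pt : PT fun a : Inst × List (List ℕ) => un a.1 a.2 := by
  have h1 : PT fun p : ((Inst × List (List ℕ)) × List ℕ) × ℕ => tag true (p.1.2, p.2) :=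
    PT.tag true (PT.pair (PT.snd PT.fst') PT.snd')
  have h2 : PT fun p : ((Inst × List (List ℕ)) × List ℕ) × (ℕ × ℕ) =>
      (tag true (p.1.2, p.2.1), tag true (p.1.2, p.2.2)) :=
    PT.pair (PT.tag true (PT.pair (PT.snd PT.fst') (PT.fst PT.snd')))
      (PT.tag true (PT.pair (PT.snd PT.fst') (PT.snd PT.snd')))
  have h3 : PT fun p : (Inst × List (List ℕ)) × List ℕ => p.2.map fun v => tag true (p.2, v) :=
    PT.map (F := fun (p : (Inst × List (List ℕ)) × List ℕ) (v : ℕ) => tag true (p.2, v))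
      PT.snd' h1
  have h4 : PT fun p : (Inst × List (List ℕ)) × List ℕ =>
      p.1.1.2.1.map fun e => (tag true (p.2, e.1), tag true (p.2, e.2)) :=
    PT.map (F := fun (p : (Inst × List (List ℕ)) × List ℕ) (e : ℕ × ℕ) =>
      (tag true (p.2, e.1), tag true (p.2, e.2))) (PT.fst (PT.snd (PT.fst PT.fst'))) h2
  exact PT.pair (PT.flatMap (F := fun (_ : Inst × List (List ℕ)) (Y : List ℕ) =>
      Y.map fun v => tag true (Y, v)) PT.snd' h3)
    (PT.pair (PT.flatMap (F := fun (a : Inst × List (List ℕ)) (Y : List ℕ) =>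
      a.1.2.1.map fun e => (tag true (Y, e.1), tag true (Y, e.2))) PT.snd' h4)
      (PT.snd (PT.snd PT.fst')))

theorem tag_eq {Y Z : List ℕ} {u v : ℕ} : tag true (Y, u) = tag true (Z, v) ↔ Y = Z ∧ u = v := by
  rw [(tag_injective true).eq_iff, Prod.mk.injEq]

theorem yes_un (I : Inst) (hk : 1 ≤ I.2.2) (S : List (List ℕ)) :
    Yes (un I S) ↔ ∃ Y ∈ S, Yes (Y, I.2.1, I.2.2) := by
  obtain ⟨V, E, k⟩ := I
  have hV : ∀ x, x ∈ (un (V, E, k) S).1 ↔ ∃ Y ∈ S, ∃ v ∈ Y, tag true (Y, v) = x := by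
    intro x; simp [un]
  have hE : ∀ x y, (x, y) ∈ (un (V, E, k) S).2.1 ↔
      ∃ Y ∈ S, ∃ u v, (u, v) ∈ E ∧ tag true (Y, u) = x ∧ tag true (Y, v) = y := by
    intro x y; simp [un]
  constructor
  · rintro ⟨T, hT, hc⟩
    have hcard : T.card = k := hc.card_eq
    obtain ⟨t₀, ht₀⟩ := Finset.card_pos.1 (show 0 < T.card by simp only at hk; omega)
    obtain ⟨Y, hY, v₀, -, rfl⟩ := (hV _).1 (hT _ ht₀)
    have hinj : Function.Injective fun v : ℕ => tag true (Y, v) := fun a b h => (tag_eq.1 h).2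
    have hadj : ∀ (Z W : List ℕ) (u v : ℕ), tag true (Z, u) ∈ T → tag true (W, v) ∈ T →
        tag true (Z, u) ≠ tag true (W, v) → Z = W ∧ ((u, v) ∈ E ∨ (v, u) ∈ E) := by
      intro Z W u v h1 h2 h3
      have h4 := hc.isClique h1 h2 h3
      rw [SimpleGraph.fromRel_adj, hE, hE] at h4
      rcases h4.2 with ⟨U, -, a, b, h5, h6, h7⟩ | ⟨U, -, a, b, h5, h6, h7⟩ <;>
        obtain ⟨rfl, rfl⟩ := tag_eq.1 h6 <;> obtain ⟨rfl, rfl⟩ := tag_eq.1 h7
      · exact ⟨rfl, Or.inl h5⟩
      · exact ⟨rfl, Or.inr h5⟩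
    refine ⟨Y, hY, Y.toFinset.filter fun v => tag true (Y, v) ∈ T, by simp +contextual, ?_, ?_⟩
    · intro u hu v hv huv
      rw [SimpleGraph.fromRel_adj]
      exact ⟨huv, (hadj Y Y u v (Finset.mem_filter.1 hu).2 (Finset.mem_filter.1 hv).2
        fun h => huv (hinj h)).2⟩
    · rw [← Finset.card_image_of_injective _ hinj, ← hcard]
      congr 1
      ext x
      simp only [Finset.mem_image, Finset.mem_filter, List.mem_toFinset]
      refine ⟨fun ⟨v, h1, h2⟩ => h2 ▸ h1.2, fun hx => ?_⟩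
      obtain ⟨Z, -, v, hv, rfl⟩ := (hV _).1 (hT _ hx)
      obtain rfl : Z = Y := by
        by_cases e : tag true (Z, v) = tag true (Y, v₀)
        · exact (tag_eq.1 e).1
        · exact (hadj _ _ _ _ hx ht₀ e).1
      exact ⟨v, ⟨hv, hx⟩, rfl⟩
  · rintro ⟨Y, hY, T, hT, hc⟩
    have hinj : Function.Injective fun v : ℕ => tag true (Y, v) := fun a b h => (tag_eq.1 h).2
    refine ⟨T.image fun v => tag true (Y, v), fun x hx => ?_, ?_, ?_⟩
    · obtain ⟨v, hv, rfl⟩ := Finset.mem_image.1 hx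
      exact (hV _).2 ⟨Y, hY, v, hT v hv, rfl⟩
    · intro x hx y hy hxy
      obtain ⟨u, hu, rfl⟩ := Finset.mem_image.1 hx
      obtain ⟨v, hv, rfl⟩ := Finset.mem_image.1 hy
      have h1 := hc.isClique hu hv fun e => hxy (by rw [e])
      rw [SimpleGraph.fromRel_adj] at h1 ⊢
      refine ⟨hxy, h1.2.imp (fun h => ?_) fun h => ?_⟩
      · exact (hE _ _).2 ⟨Y, hY, u, v, h, rfl, rfl⟩
      · exact (hE _ _).2 ⟨Y, hY, v, u, h, rfl, rfl⟩
    · rw [Finset.card_image_of_injective _ hinj]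
      exact hc.card_eq

theorem run_pt {γ : Type} [Enc γ] {E : γ → List (ℕ × ℕ)} {k : γ → ℕ}
    {test : γ → List (List ℕ) → List (List ℕ) → Bool} {P : γ → List Line} (hE : PT E) (hk : PT k)
    (ht : PT fun a : γ × List (List ℕ) × List (List ℕ) => test a.1 a.2.1 a.2.2) (hP : PT P) :
    PT fun a => (P a).foldl (step (E a) (k a) (test a)) [] := by
  have hc : PT fun a : γ × List (List ℕ) × Line => a.1 := PT.fst'
  have hacc : PT fun a : γ × List (List ℕ) × Line => a.2.1 := PT.fst PT.snd'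
  have hl : PT fun a : γ × List (List ℕ) × Line => a.2.2 := PT.snd PT.snd'
  have hX := PT.fst hl
  have hu := PT.fst (PT.snd hl)
  have hv := PT.fst (PT.snd (PT.snd hl))
  have hS := PT.fst (PT.snd (PT.snd (PT.snd hl)))
  have hS' := PT.snd (PT.snd (PT.snd (PT.snd hl)))
  have hdel : PT fun a : List ℕ × ℕ => del a.1 a.2 :=
    PT.filter (P := fun (a : List ℕ × ℕ) v => !decide (v = a.2)) PT.fst'
      (PT.not (PT.eq PT.snd' (PT.snd PT.fst')))
  have hE' := PT.comp hE hc
  have hall : PT fun a : γ × List (List ℕ) × Line =>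
      a.2.2.2.2.2.2.all fun Y => decide (Y ∈ a.2.1) :=
    PT.all (P := fun (a : γ × List (List ℕ) × Line) Y => decide (Y ∈ a.2.1)) hS'
      (ptMem PT.snd' (PT.fst (PT.snd PT.fst')))
  have hj : PT fun a : γ × List (List ℕ) × Line => just (E a.1) (k a.1) (test a.1) a.2.1 a.2.2 :=
    PT.or (PT.or (PT.lt (PT.length (PT.dedup hX)) (PT.comp hk hc))
      (PT.and (PT.and (PT.and (PT.and (PT.not (PT.eq hu hv))
        (PT.not (ptMem (PT.pair hu hv) hE'))) (PT.not (ptMem (PT.pair hv hu) hE')))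
        (ptMem (PT.comp hdel (PT.pair hX hu) :) hacc))
        (ptMem (PT.comp hdel (PT.pair hX hv) :) hacc)))
      (PT.and (PT.and (ptMem hX hS) hall) (PT.comp ht (PT.pair hc (PT.pair hS hS')) :))
  refine PT.foldl_add (h := fun a => step (E a) (k a) (test a)) hP (PT.const [])
    (PT.cond hj (PT.cons hX hacc) hacc) (fun a => 2 * sz (P a) + 1)
    (((Bd.const 2).mul hP.sz_bd).add (Bd.const 1)) ?_
  rintro a s ⟨X, r⟩ hb
  have h1 := sz_le_of_mem hb
  rw [sz_prod] at h1
  unfold step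
  cases just (E a) (k a) (test a) s (X, r)
  · simp
  · simp only [cond_true, sz_cons]; omega

theorem collide {Λ : Type} [Fintype Λ] {L : ℕ} (hL : Fintype.card Λ < 2 ^ (L + 1))
    (T : Finset (List ℕ)) (hT : T.card = L + 1) (lab : Finset (List ℕ) → Λ) :
    ∃ S ⊆ T, ∃ S' ⊆ T, ∃ X ∈ S, X ∉ S' ∧ lab S = lab S' := by
  obtain ⟨S, hS, S', hS', hne, h⟩ := Finset.exists_ne_map_eq_of_card_lt_of_maps_to
    (s := T.powerset) (t := Finset.univ) (f := lab)
    (by rwa [Finset.card_powerset, hT, Finset.card_univ]) (by simp)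
  rw [Finset.mem_powerset] at hS hS'
  by_cases h1 : S ⊆ S'
  · have h2 : ¬ S' ⊆ S := fun h2 => hne (Finset.Subset.antisymm h1 h2)
    obtain ⟨X, h3, h4⟩ := Finset.not_subset.1 h2
    exact ⟨S', hS', S, hS, X, h3, h4, h.symm⟩
  · obtain ⟨X, h3, h4⟩ := Finset.not_subset.1 h1
    exact ⟨S, hS, S', hS', X, h3, h4, h⟩

theorem numeric {d K : ℕ} (hK : ∀ j : ℕ, j ^ (d + 1) ≤ K * 2 ^ j) {g e j : ℕ}
    (hj : (4 * g * e + 1) ^ d * K + 1 ≤ j) : (2 * (g * ((j + 1) * e)) + 1) ^ d < 2 ^ j := by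
  have h1 : 2 * (g * ((j + 1) * e)) + 1 ≤ (4 * g * e + 1) * j := by
    have : 1 ≤ j := by omega
    nlinarith [Nat.zero_le (g * e), Nat.mul_le_mul_left (g * e) this]
  have h2 := Nat.pow_le_pow_left h1 d
  rw [mul_pow] at h2
  refine h2.trans_lt (Nat.lt_of_mul_lt_mul_left (a := K) (lt_of_lt_of_le ?_ (hK j)))
  have h3 : 0 < j ^ d := Nat.pos_of_ne_zero (pow_ne_zero _ (by omega))
  rw [pow_succ]
  nlinarith

theorem sp_clique {d : ℕ} (h : FptRed pClique (pLogSat d)) : SP pClique := by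
  obtain ⟨R, g, hR, hg, hr⟩ := h
  obtain ⟨sim, f, c, hsim, hf, hs⟩ := hR.sim
  obtain ⟨le, hle, hle1, hle2⟩ := exists_le d
  obtain ⟨p, hp, ep⟩ := prs_inst
  obtain ⟨pw, hpw, epw⟩ : Prs (List Bool × List Line) := (Prs.list Prs.bool).prod
    (Prs.list ((Prs.list Prs.nat).prod (Prs.nat.prod (Prs.nat.prod
      ((Prs.list (Prs.list Prs.nat)).prod (Prs.list (Prs.list Prs.nat)))))))
  obtain ⟨q, hq⟩ := un_pt.sz_bd
  obtain ⟨q', hq'⟩ := hsim.sz_bd
  obtain ⟨K, hK⟩ := exists_pow_bound d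
  let sm : Inst → List Bool → List (List ℕ) → Bool × List Bool := fun I clk S =>
    sim (enc (un I S), clk)
  let test : Inst → List Bool → List (List ℕ) → List (List ℕ) → Bool := fun I clk S S' =>
    (sm I clk S).1 && (sm I clk S').1 && le ((sm I clk S).2, (sm I clk S').2)
  have hsm : PT fun a : (Inst × List Bool) × List (List ℕ) => sm a.1.1 a.1.2 a.2 :=
    PT.comp hsim (PT.pair (PT.comp PT.encList (PT.comp un_pt
      (PT.pair (PT.fst PT.fst') PT.snd'))) (PT.snd PT.fst'))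
  have hI : PT fun a : List Bool × List Bool => p a.1 := PT.comp hp PT.fst'
  have hW : PT fun a : List Bool × List Bool => pw a.2 := PT.comp hpw PT.snd'
  have h0 : PT fun a : (List Bool × List Bool) × List (List ℕ) × List (List ℕ) =>
      (p a.1.1, (pw a.1.2).1) := PT.comp (PT.pair hI (PT.fst hW)) PT.fst'
  have h1 := PT.comp hsm (PT.pair h0 (PT.fst PT.snd'))
  have h2 := PT.comp hsm (PT.pair h0 (PT.snd PT.snd'))
  have hrun := run_pt (test := fun a : List Bool × List Bool => test (p a.1) (pw a.2).1)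
    (PT.fst (PT.snd hI)) (PT.snd (PT.snd hI))
    (PT.and (PT.and (PT.fst h1) (PT.fst h2)) (PT.comp hle (PT.pair (PT.snd h1) (PT.snd h2))))
    (PT.snd hW)
  have b1 : Bd (fun z => z) fun z => q.eval (2 * z + 1 + (z + 1) * (2 * z + 1)) :=
    ((((Bd.const 2).mul Bd.self).add (Bd.const 1)).add ((Bd.self.add (Bd.const 1)).mul
      (((Bd.const 2).mul Bd.self).add (Bd.const 1)))).eval q
  have b2 := Bd.self.mul ((b1.add (Bd.const 1)).pow c)
  obtain ⟨e, he⟩ := (((((Bd.const 6).mul b1).add (Bd.const 1)).add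
    ((Bd.const 3).mul b2)).eval q').le_pow
  obtain ⟨e', he'⟩ := ((((Bd.const 6).mul b2).add (Bd.const 1)).add
    (((Bd.const 1).add (((Bd.const 3).mul Bd.self).mul Bd.self)).mul (((Bd.const 2).mul
      ((((Bd.const 6).mul Bd.self).add (Bd.const 4)).add ((Bd.const 3).mul
        ((Bd.self.add (Bd.const 1)).mul (((Bd.const 2).mul Bd.self).add (Bd.const 1)))))).add
      (Bd.const 1)))).le_pow
  refine ⟨fun a => !decide (enc (p a.1) = a.1) || (decide (1 ≤ (p a.1).2.2) &&
      decide ((p a.1).1 ∈ (pw a.2).2.foldl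
        (step (p a.1).2.1 (p a.1).2.2 (test (p a.1) (pw a.2).1)) [])),
    fun k => (2 ^ ((4 * g k * e + 1) ^ d * K + 3) * (f k + 2)) ^ e', e',
    PT.or (PT.not (PT.eq (PT.comp PT.encList hI) PT.fst'))
      (PT.and (PT.le (PT.const 1) (PT.snd (PT.snd hI))) (ptMem (PT.fst hI) hrun)),
    computable_pow (computable_mul (computable_two_pow (computable_add (computable_mul
      (computable_pow (computable_add (computable_mul (computable_mul (Computable.const 4) hg)
        (Computable.const e)) (Computable.const 1)) d) (Computable.const K))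
      (Computable.const 3))) (computable_add hf (Computable.const 2))) e', ?_, ?_⟩
  · rintro x w hw ⟨I, rfl, hyes⟩
    have e0 : bitEncode I = enc I := rfl
    simp only [e0, ep, decide_true, Bool.not_true, Bool.false_or, Bool.and_eq_true,
      decide_eq_true_eq] at hw
    refine run_sound (E := I.2.1) (k := I.2.2) (test := test I (pw w).1) ?_ _ [] (by simp) _
      hw.2 hyes
    intro S S' ht hS' Y hY hY'
    simp only [test, sm, Bool.and_eq_true] at ht
    obtain ⟨⟨h3, h4⟩, h5⟩ := ht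
    rw [(hs _ _).2 h3, (hs _ _).2 h4] at h5
    refine hle1 _ _ h5 (fun h6 => ?_) ((hr _).1.1 ((mem_coded _ _ _).2
      ((yes_un I hw.1 S).2 ⟨Y, hY, hY'⟩)))
    obtain ⟨Z, hZ, hZ'⟩ := (yes_un I hw.1 S').1 ((mem_coded _ _ _).1 ((hr _).1.2 h6))
    exact hS' Z hZ hZ'
  · intro x hx
    by_cases hval : enc (p x) = x
    swap
    · exact ⟨[], by simp, by simp [hval]⟩
    obtain ⟨⟨V, E, k⟩, rfl⟩ : ∃ I : Inst, enc I = x := ⟨_, hval⟩
    have hno : ¬ Yes (V, E, k) := fun h => hx ((mem_coded _ _ _).2 h)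
    have hk : 1 ≤ k := by
      by_contra h0
      obtain rfl : k = 0 := by omega
      exact hno ⟨∅, by simp, by simp⟩
    have hκ : ∀ S, pClique.κ (enc (un (V, E, k) S)) = k := fun S => κ_coded _ _ _
    have hκ' : pClique.κ (enc ((V, E, k) : Inst)) = k := κ_coded _ _ _
    set N := sz ((V, E, k) : Inst) with hN
    have hVN : sz V ≤ N := by rw [hN, sz_prod]; omega
    set j := (4 * g k * e + 1) ^ d * K + 1 + (f k + N + 2).size with hj
    set L := 2 ^ j with hL
    set z := f k + L + N + 2 with hz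
    have h3 : f k + N + 2 < L :=
      (Nat.lt_size_self _).trans_le (Nat.pow_le_pow_right (by norm_num) (by omega))
    have h4 : z ≤ 2 ^ (j + 1) := by rw [pow_succ]; omega
    set u := q.eval (2 * z + 1 + (z + 1) * (2 * z + 1)) with hu
    set clk := List.replicate (z * (u + 1) ^ c) true with hclk
    obtain ⟨lab, hlab⟩ := hle2 (g k * ((j + 1) * e))
    have key : ∀ S : List (List ℕ), S.length ≤ L + 1 → (∀ Y ∈ S, Y.Sublist V) →
        (sm (V, E, k) clk S).1 = true ∧
          ∀ φ : CNF, enc φ = (sm (V, E, k) clk S).2 → nvars φ ≤ g k * ((j + 1) * e) := by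
      intro S h5 h6
      have h7 : sz S ≤ (z + 1) * (2 * z + 1) :=
        (sz_le_of_forall z S fun Y hY => (sz_le_of_sublist (h6 Y hY)).trans (by omega)).trans
          (Nat.mul_le_mul_right _ (by omega))
      have h8 : (enc (un (V, E, k) S)).length ≤ u :=
        (hq ((V, E, k), S)).trans (eval_mono q (by rw [sz_prod, ← hN]; omega))
      have h9 := (hs (enc (un (V, E, k) S)) clk).1 (by
        rw [hκ, hclk, List.length_replicate]
        exact Nat.mul_le_mul (by omega) (Nat.pow_le_pow_left (by omega) c))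
      refine ⟨h9, fun φ hφ => ?_⟩
      have h10 := (hs (enc (un (V, E, k) S)) clk).2 h9
      have h11 := (hr (enc (un (V, E, k) S))).2
      rw [hκ, ← h10] at h11
      change (pLogSat d).κ (sm (V, E, k) clk S).2 ≤ _ at h11
      rw [← hφ] at h11
      refine nvars_le ((κ_coded _ _ φ).symm.le.trans h11) ?_
      have h12 := hq' (enc (un (V, E, k) S), clk)
      have h13 : sz (sim (enc (un (V, E, k) S), clk)) = 2 * 1 + 1 + 3 * sz φ := by
        rw [sz, sz, hφ, ← PT.sz_listBool]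
        exact sz_prod (sim (enc (un (V, E, k) S), clk)).1 (sim (enc (un (V, E, k) S), clk)).2
      have h14 := eval_mono q' (show sz ((enc (un (V, E, k) S), clk) : List Bool × List Bool) ≤
          6 * u + 1 + 3 * (z * (u + 1) ^ c) by
        rw [sz_prod, PT.sz_listBool, PT.sz_listBool, hclk, List.length_replicate]; omega)
      have h15 := he z (by omega)
      have h16 := Nat.pow_le_pow_left h4 e
      rw [← pow_mul] at h16
      simp only [← hu] at h12 h15
      omega
    obtain ⟨P, hP1, hP2, hP3⟩ := complete (E := E) (k := k) (test := test (V, E, k) clk)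
      (V := V) (L := L) hk (by
        intro T hT hTV
        obtain ⟨S, hS, S', hS', X, hX, hX', hl⟩ := collide (L := L) (by
          rw [card_labels]
          exact Nat.pow_lt_pow_right (by norm_num)
            (Nat.succ_lt_succ (numeric hK (by omega)))) T hT
          fun S => lab (sm (V, E, k) clk S.toList).2
        have h5 : ∀ S ⊆ T, S.toList.length ≤ L + 1 ∧ ∀ Y ∈ S.toList, Y.Sublist V :=
          fun S hS => ⟨by rw [Finset.length_toList, ← hT]; exact Finset.card_le_card hS,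
            fun Y hY => hTV Y (hS (Finset.mem_toList.1 hY))⟩
        obtain ⟨h6, -⟩ := key _ (h5 S hS).1 (h5 S hS).2
        obtain ⟨h7, h8⟩ := key _ (h5 S' hS').1 (h5 S' hS').2
        refine ⟨S, hS, S', hS', X, hX, hX', ?_⟩
        simp only [test, h6, h7, hlab _ _ h8 hl, Bool.and_self]) V.length {V}
      (by simpa using hno)
    refine ⟨enc (clk, P), ?_, ?_⟩
    · have h5 := sz_le_of_forall _ P hP2
      have h6 := length_le_sz V
      have h7 : P.length ≤ 1 + 3 * z * z := by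
        refine hP1.trans ?_
        rw [Finset.card_singleton]
        exact Nat.add_le_add_left (Nat.mul_le_mul (by omega) (by omega)) 1
      have h8 : (L + 1) * (2 * sz V + 1) ≤ (z + 1) * (2 * z + 1) :=
        Nat.mul_le_mul (by omega) (by omega)
      have h9 := h5.trans (Nat.mul_le_mul h7 (show _ ≤ 2 * (6 * z + 4 + 3 *
        ((z + 1) * (2 * z + 1))) + 1 by omega))
      have h10 := he' z (by omega)
      have h11 : z ≤ 2 ^ ((4 * g k * e + 1) ^ d * K + 3) * (f k + 2) * (N + 1) := by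
        refine h4.trans ?_
        have h12 : 2 ^ (f k + N + 2).size ≤ 2 * (f k + N + 2) := by
          have h13 : 0 < (f k + N + 2).size := Nat.size_pos.2 (by omega)
          have h14 := (Nat.lt_size (m := (f k + N + 2).size - 1) (n := f k + N + 2)).1 (by omega)
          rw [show (f k + N + 2).size = (f k + N + 2).size - 1 + 1 by omega, pow_succ]
          omega
        calc 2 ^ (j + 1) = 2 ^ ((4 * g k * e + 1) ^ d * K + 2) * 2 ^ (f k + N + 2).size := by
              rw [← pow_add, hj]; congr 1; omega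
          _ ≤ 2 ^ ((4 * g k * e + 1) ^ d * K + 2) * (2 * ((f k + 2) * (N + 1))) :=
              Nat.mul_le_mul_left _ (h12.trans (by nlinarith))
          _ = _ := by ring
      have h12 := Nat.pow_le_pow_left h11 e'
      change sz (clk, P) ≤ _ * (N + 1) ^ e'
      rw [sz_prod, PT.sz_listBool, hclk, List.length_replicate, hκ', ← mul_pow]
      simp only [← hu] at h10
      omega
    · have := hP3 [] (by simp) V (by simp)
      simp only [ep, epw, hk, this, decide_true, Bool.and_self, Bool.or_true]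

/-- One polynomial time proof system refutes every unsatisfiable `d`-CNF with `n` variables by
a proof of length `2 ^ (ε n)` times a polynomial, for every `ε > 0`. -/
def SubexpRefutable (d : ℕ) : Prop :=
  ∃ (V : CNF × List Bool → Bool) (c : ℕ), IsPolyTime V ∧
    (∀ φ w, Width d φ → V (φ, w) = true → ¬ Sat φ) ∧
    ∀ ε : ℝ, 0 < ε → ∃ C : ℝ, ∀ φ, Width d φ → ¬ Sat φ → ∃ w : List Bool, V (φ, w) = true ∧
      (w.length : ℝ) ≤ C * 2 ^ (ε * nvars φ) * ((bitEncode φ).length + 1) ^ c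

theorem subexp {d : ℕ} (h : SP (pLogSat d)) : SubexpRefutable d := by
  obtain ⟨V, h, c, hV, hh, hs, hc⟩ := h
  obtain ⟨H, -, hH⟩ := exists_envelope hh
  obtain ⟨p, hp, ep⟩ := (Prs.list Prs.bool).prod (Prs.list Prs.bool)
  let pad : CNF → List Bool → CNF := fun φ l => φ ++ l.flatMap fun _ => φ.take 1
  have hW : PT fun a : CNF × List Bool => p a.2 := PT.comp hp PT.snd'
  have hpad : PT fun a : CNF × List Bool => pad a.1 (p a.2).1 :=
    PT.append PT.fst' (PT.flatMap (F := fun (a : CNF × List Bool) (_ : Bool) => a.1.take 1)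
      (PT.fst hW) (PT.take1 (PT.fst PT.fst')))
  have hmem : ∀ φ l C, C ∈ pad φ l ↔ C ∈ φ := by
    intro φ l C
    simp only [pad, List.mem_append, List.mem_flatMap]
    exact ⟨fun h => h.elim id fun ⟨_, _, h⟩ => List.mem_of_mem_take h, Or.inl⟩
  have hQ : ∀ φ l, Width d φ → (enc (pad φ l) ∈ (pLogSat d).Q ↔ Sat φ) := by
    intro φ l hw
    rw [pLogSat, mem_coded]
    simp only [Width, Sat, hmem] at hw ⊢
    exact and_iff_right hw
  have hn : ∀ φ l, nvars (pad φ l) = nvars φ := by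
    intro φ l
    unfold nvars
    congr 1
    ext v
    simp [hmem]
  have hsz : ∀ (φ : CNF) (l : List Bool), φ ≠ [] →
      l.length ≤ sz (pad φ l) ∧ sz (pad φ l) ≤ sz φ * (l.length + 1) := by
    intro φ l hφ
    have h1 : 1 ≤ sz (φ.take 1) := le_trans (by cases φ <;> simp_all) (length_le_sz _)
    have h2 : sz (φ.take 1) ≤ sz φ := sz_le_of_sublist (List.take_sublist _ _)
    have h3 : sz (l.flatMap fun _ => φ.take 1) = l.length * sz (φ.take 1) := by
      induction l with
      | nil => simp [sz_nil]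
      | cons b l ih => rw [List.flatMap_cons, sz_append, ih, List.length_cons]; ring
    simp only [pad, sz_append, h3]
    constructor <;> nlinarith
  refine ⟨fun a => V (enc (pad a.1 (p a.2).1), (p a.2).2), c,
    (PT.comp hV (PT.pair (PT.comp PT.encList hpad) (PT.snd hW))).isPolyTime,
    fun φ w hw hv => (hQ φ _ hw).not.1 (hs _ _ hv), fun ε hε => ?_⟩
  obtain ⟨j, hj⟩ := exists_nat_gt ((c + 1 : ℝ) / ε)
  have hj0 : 0 < j := by
    have : (0 : ℝ) < j := lt_of_le_of_lt (by positivity) hj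
    exact_mod_cast this
  refine ⟨(13 + 3 * (H j * 3 ^ c) : ℕ), fun φ hw hφ => ?_⟩
  have hne : φ ≠ [] := by rintro rfl; exact hφ ⟨fun _ => true, by simp⟩
  set t := nvars φ / j with ht
  set l := List.replicate (2 ^ (t + 1)) true with hl
  obtain ⟨w, hw1, hw2⟩ := hc (enc (pad φ l)) ((hQ φ l hw).not.2 hφ)
  refine ⟨enc (l, w), by simp only [ep, hw2], ?_⟩
  obtain ⟨h1, h2⟩ := hsz φ l hne
  rw [hl, List.length_replicate, ← hl] at h1 h2
  have h3 : 2 ≤ 2 ^ (t + 1) := Nat.le_self_pow (Nat.succ_ne_zero t) 2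
  have h4 : (pLogSat d).κ (enc (pad φ l)) ≤ j := by
    rw [pLogSat, κ_coded]
    refine Nat.le_of_not_lt fun h5 => ?_
    rw [lt_ceil_iff (h3.trans h1), hn] at h5
    have h6 := (Nat.pow_le_pow_left h1 j).trans_lt h5
    rw [← pow_mul, Nat.pow_lt_pow_iff_right (by norm_num)] at h6
    have := Nat.lt_mul_div_succ (nvars φ) hj0
    rw [← ht, mul_comm] at this
    omega
  have h5 : w.length ≤ H j * ((sz φ + 1) * (3 * 2 ^ t)) ^ c :=
    hw1.trans (Nat.mul_le_mul (hH _ _ h4) (Nat.pow_le_pow_left (by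
      change sz (pad φ l) + 1 ≤ _
      have : 1 ≤ 2 ^ t := Nat.one_le_two_pow
      rw [pow_succ] at h2
      nlinarith) c))
  have h6 : (enc (l, w)).length ≤ (13 + 3 * (H j * 3 ^ c)) * 2 ^ ((c + 1) * t) * (sz φ + 1) ^ c := by
    change sz (l, w) ≤ _
    rw [sz_prod, PT.sz_listBool, PT.sz_listBool, hl, List.length_replicate]
    have a1 : 1 ≤ (sz φ + 1) ^ c := Nat.one_le_pow _ _ (by omega)
    have a2 : 1 ≤ 2 ^ t := Nat.one_le_two_pow
    have a3 : 1 ≤ 2 ^ (c * t) := Nat.one_le_two_pow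
    rw [mul_pow, mul_pow, ← pow_mul, mul_comm t c] at h5
    rw [add_mul c, one_mul, pow_add 2 (c * t), pow_succ]
    set A := (sz φ + 1) ^ c
    set B := 2 ^ t
    set D := 2 ^ (c * t)
    have a4 : B ≤ D * B * A := by nlinarith [Nat.mul_le_mul a3 a1]
    have a5 : H j * (A * (3 ^ c * D)) ≤ H j * 3 ^ c * (D * B) * A := by
      calc H j * (A * (3 ^ c * D)) = H j * 3 ^ c * D * A * 1 := by ring
        _ ≤ H j * 3 ^ c * D * A * B := Nat.mul_le_mul_left _ a2
        _ = _ := by ring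
    nlinarith
  have h7 : ((2 ^ ((c + 1) * t) : ℕ) : ℝ) ≤ 2 ^ (ε * nvars φ) := by
    rw [Nat.cast_pow, Nat.cast_ofNat, ← Real.rpow_natCast]
    refine Real.rpow_le_rpow_of_exponent_le (by norm_num) ?_
    have a1 : ((t * j : ℕ) : ℝ) ≤ nvars φ := by exact_mod_cast Nat.div_mul_le_self _ _
    rw [div_lt_iff₀ hε] at hj
    push_cast at a1 ⊢
    have a2 : (0 : ℝ) ≤ t := Nat.cast_nonneg _
    nlinarith
  calc ((enc (l, w)).length : ℝ)
      ≤ ((13 + 3 * (H j * 3 ^ c)) * 2 ^ ((c + 1) * t) * (sz φ + 1) ^ c : ℕ) := by exact_mod_cast h6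
    _ ≤ _ := by
      rw [Nat.cast_mul, Nat.cast_mul, Nat.cast_pow (sz φ + 1), Nat.cast_add (sz φ), Nat.cast_one]
      gcongr

theorem sp_of_subset (h : W1 ⊆ M1) {A : PProb} (hA : A ∈ W1) : SP A := by
  have h1 := h clique_mem_W1
  simp only [M1, Set.mem_iUnion] at h1
  obtain ⟨d, -, -, h1⟩ := h1
  exact (sp_clique h1).of_red hA.2

/-- The collapse refutes the nondeterministic exponential time hypothesis. -/
theorem subexp_of_eq (h : M1 = W1) {d : ℕ} (hd : 1 ≤ d) : SubexpRefutable d :=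
  subexp (sp_of_subset h.ge (h ▸ logSat_mem_M1 hd))

end Pool.Agent.Lib.MP_ddf912_lc
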