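import Pool.Agent.Lib.MP_ddf912_lc.Label

namespace Pool.Agent.Lib.MP_ddf912_lc

open Turing N487b59b3 N68a2faeb Pool.Agent.Lib.helper82

abbrev Inst := List ℕ × List (ℕ × ℕ) × ℕ
abbrev Line := List ℕ × ℕ × ℕ × List (List ℕ) × List (List ℕ)

def Yes (I : Inst) : Prop := ∃ S : Finset ℕ, (∀ v ∈ S, v ∈ I.1) ∧
    (SimpleGraph.fromRel fun u v => (u, v) ∈ I.2.1).IsNClique I.2.2 S

def del (X : List ℕ) (u : ℕ) : List ℕ := X.filter fun v => !decide (v = u)

section System
variable (E : List (ℕ × ℕ)) (k : ℕ) (test : List (List ℕ) → List (List ℕ) → Bool)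

def just (acc : List (List ℕ)) (l : Line) : Bool :=
  decide (l.1.dedup.length < k) ||
  (!decide (l.2.1 = l.2.2.1) && !decide ((l.2.1, l.2.2.1) ∈ E) &&
    !decide ((l.2.2.1, l.2.1) ∈ E) && decide (del l.1 l.2.1 ∈ acc) &&
    decide (del l.1 l.2.2.1 ∈ acc)) ||
  (decide (l.1 ∈ l.2.2.2.1) && (l.2.2.2.2.all fun Y => decide (Y ∈ acc)) &&
    test l.2.2.2.1 l.2.2.2.2)

def step (acc : List (List ℕ)) (l : Line) : List (List ℕ) :=
  bif just E k test acc l then l.1 :: acc else acc

variable {E k test}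

theorem just_sound
    (ht : ∀ S S', test S S' = true → (∀ Y ∈ S', ¬ Yes (Y, E, k)) → ∀ Y ∈ S, ¬ Yes (Y, E, k))
    {acc : List (List ℕ)} (hacc : ∀ Y ∈ acc, ¬ Yes (Y, E, k)) {l : Line}
    (h : just E k test acc l = true) : ¬ Yes (l.1, E, k) := by
  obtain ⟨X, u, v, S, S'⟩ := l
  simp only [just, Bool.or_eq_true, Bool.and_eq_true, decide_eq_true_eq, Bool.not_eq_true',
    decide_eq_false_iff_not, List.all_eq_true] at h
  rcases h with (h | ⟨⟨⟨⟨h1, h2⟩, h3⟩, h4⟩, h5⟩) | ⟨⟨h1, h2⟩, h3⟩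
  · rintro ⟨T, hT, hc⟩
    have h1 : T.card ≤ X.toFinset.card :=
      Finset.card_le_card fun a ha => List.mem_toFinset.2 (hT a ha)
    have h2 := hc.card_eq
    rw [List.card_toFinset] at h1
    simp only at h2
    omega
  · rintro ⟨T, hT, hc⟩
    by_cases hu : u ∈ T
    · by_cases hv : v ∈ T
      · have := hc.isClique hu hv h1
        simp [h2, h3] at this
      · refine hacc _ h5 ⟨T, fun a ha => ?_, hc⟩
        simp only [del, List.mem_filter, Bool.not_eq_true', decide_eq_false_iff_not]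
        exact ⟨hT a ha, fun e => hv (e ▸ ha)⟩
    · refine hacc _ h4 ⟨T, fun a ha => ?_, hc⟩
      simp only [del, List.mem_filter, Bool.not_eq_true', decide_eq_false_iff_not]
      exact ⟨hT a ha, fun e => hu (e ▸ ha)⟩
  · exact ht S S' h3 (fun Y hY => hacc Y (h2 Y hY)) X h1

theorem run_sound
    (ht : ∀ S S', test S S' = true → (∀ Y ∈ S', ¬ Yes (Y, E, k)) → ∀ Y ∈ S, ¬ Yes (Y, E, k)) :
    ∀ (P : List Line) (acc : List (List ℕ)), (∀ Y ∈ acc, ¬ Yes (Y, E, k)) →
      ∀ Y ∈ P.foldl (step E k test) acc, ¬ Yes (Y, E, k) := by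
  intro P
  induction P with
  | nil => exact fun acc h => h
  | cons l P ih =>
    intro acc h
    refine ih _ ?_
    unfold step
    cases e : just E k test acc l
    · exact h
    · intro Y hY
      rcases List.mem_cons.1 hY with rfl | hY
      · exact just_sound ht h e
      · exact h Y hY

theorem mem_run : ∀ (P : List Line) (acc : List (List ℕ)), ∀ Y ∈ acc,
    Y ∈ P.foldl (step E k test) acc := by
  intro P
  induction P with
  | nil => exact fun acc Y h => h
  | cons l P ih =>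
    intro acc Y h
    refine ih _ _ ?_
    unfold step
    cases just E k test acc l
    · exact h
    · exact List.mem_cons_of_mem _ h

variable (E k test)

/-- From the sets in `A` one derives those in `B` by at most `t` lines of size at most `b`. -/
def Ext (b : ℕ) (A B : Finset (List ℕ)) (t : ℕ) : Prop :=
  ∃ P : List Line, P.length ≤ t ∧ (∀ l ∈ P, sz l ≤ b) ∧
    ∀ acc : List (List ℕ), (∀ X ∈ A, X ∈ acc) → ∀ X ∈ B, X ∈ P.foldl (step E k test) acc

variable {E k test} {b : ℕ}

theorem Ext.trans {A B C : Finset (List ℕ)} {t t' : ℕ} (h : Ext E k test b A B t)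
    (h' : Ext E k test b B C t') : Ext E k test b A C (t + t') := by
  obtain ⟨P, h1, h2, h3⟩ := h
  obtain ⟨P', h1', h2', h3'⟩ := h'
  refine ⟨P ++ P', by simp; omega, fun l hl => (List.mem_append.1 hl).elim (h2 l) (h2' l),
    fun acc hacc => ?_⟩
  rw [List.foldl_append]
  exact h3' _ (h3 acc hacc)

theorem Ext.mono {A B : Finset (List ℕ)} {t t' : ℕ} (h : Ext E k test b A B t) (ht : t ≤ t') :
    Ext E k test b A B t' := by
  obtain ⟨P, h1, h2, h3⟩ := h
  exact ⟨P, h1.trans ht, h2, h3⟩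

theorem Ext.lines (A B : Finset (List ℕ)) (h : ∀ X ∈ B, X ∈ A ∨ ∃ l : Line, l.1 = X ∧ sz l ≤ b ∧
    ∀ acc : List (List ℕ), (∀ Y ∈ A, Y ∈ acc) → just E k test acc l = true) :
    Ext E k test b A B (B \ A).card := by
  induction B using Finset.induction_on with
  | empty => exact ⟨[], by simp, by simp, by simp⟩
  | insert X B hX ih =>
    obtain ⟨P, h1, h2, h3⟩ := ih fun Y hY => h Y (Finset.mem_insert_of_mem hY)
    by_cases hA : X ∈ A
    · refine ⟨P, by rwa [Finset.insert_sdiff_of_mem _ hA], h2, fun acc hacc Y hY => ?_⟩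
      rcases Finset.mem_insert.1 hY with rfl | hY
      · exact mem_run _ _ _ (hacc _ hA)
      · exact h3 acc hacc Y hY
    · obtain ⟨l, rfl, h4, h5⟩ := (h X (Finset.mem_insert_self _ _)).resolve_left hA
      refine ⟨P ++ [l], ?_, ?_, fun acc hacc Y hY => ?_⟩
      · rw [Finset.insert_sdiff_of_notMem _ hA, Finset.card_insert_of_notMem (by simp [hX])]
        simpa using h1
      · intro l' hl'
        rcases List.mem_append.1 hl' with h6 | h6
        · exact h2 _ h6
        · rwa [List.mem_singleton.1 h6]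
      · rw [List.foldl_append, List.foldl_cons, List.foldl_nil, step,
          h5 _ fun Y hY => mem_run _ _ _ (hacc Y hY), cond_true]
        rcases Finset.mem_insert.1 hY with rfl | hY
        · exact List.mem_cons_self
        · exact List.mem_cons_of_mem _ (h3 acc hacc Y hY)

theorem sz_line {V : List ℕ} {L : ℕ} {X : List ℕ} {u v : ℕ} {S S' : List (List ℕ)}
    (hX : X.Sublist V) (hu : sz u ≤ sz V) (hv : sz v ≤ sz V) (hS : S.length ≤ L + 1)
    (hS1 : ∀ Y ∈ S, Y.Sublist V) (hS' : S'.length ≤ L + 1) (hS1' : ∀ Y ∈ S', Y.Sublist V) :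
    sz ((X, u, v, S, S') : Line) ≤ 6 * sz V + 4 + 3 * ((L + 1) * (2 * sz V + 1)) := by
  have h1 := sz_le_of_sublist hX
  have h2 := (sz_le_of_forall (sz V) S fun Y hY => sz_le_of_sublist (hS1 Y hY)).trans
    (Nat.mul_le_mul_right _ hS)
  have h3 := (sz_le_of_forall (sz V) S' fun Y hY => sz_le_of_sublist (hS1' Y hY)).trans
    (Nat.mul_le_mul_right _ hS')
  simp only [sz_prod]
  omega

theorem prune {V : List ℕ} {L : ℕ}
    (ht : ∀ T : Finset (List ℕ), T.card = L + 1 → (∀ Y ∈ T, Y.Sublist V) →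
      ∃ S ⊆ T, ∃ S' ⊆ T, ∃ X ∈ S, X ∉ S' ∧ test S.toList S'.toList = true) :
    ∀ (n : ℕ) (A : Finset (List ℕ)), A.card ≤ n → (∀ Y ∈ A, Y.Sublist V) → ∃ B ⊆ A, B.card ≤ L ∧
      Ext E k test (6 * sz V + 4 + 3 * ((L + 1) * (2 * sz V + 1))) B A n := by
  intro n
  induction n with
  | zero =>
    intro A hA _
    exact ⟨A, subset_rfl, by omega, [], le_rfl, by simp, fun acc h => h⟩
  | succ n ih =>
    intro A hA hV
    by_cases hL : A.card ≤ L
    · exact ⟨A, subset_rfl, hL, [], by simp, by simp, fun acc h => h⟩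
    obtain ⟨T, hT, hTc⟩ := Finset.exists_subset_card_eq (show L + 1 ≤ A.card by omega)
    obtain ⟨S, hS, S', hS', X, hX, hX', h⟩ := ht T hTc fun Y hY => hV Y (hT hY)
    have hXA : X ∈ A := hT (hS hX)
    obtain ⟨B, h1, h2, h3⟩ := ih (A.erase X) (by rw [Finset.card_erase_of_mem hXA]; omega)
      fun Y hY => hV Y (Finset.mem_of_mem_erase hY)
    refine ⟨B, h1.trans (Finset.erase_subset _ _), h2, h3.trans ((Ext.lines _ _ ?_).mono ?_)⟩
    · intro Y hY
      by_cases e : Y = X
      · subst e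
        refine Or.inr ⟨(Y, 0, 0, S.toList, S'.toList), rfl, sz_line (hV Y hY) (by simp [sz_nat])
          (by simp [sz_nat]) ?_ ?_ ?_ ?_, fun acc hacc => ?_⟩
        · rw [Finset.length_toList, ← hTc]; exact Finset.card_le_card hS
        · exact fun Z hZ => hV Z (hT (hS (Finset.mem_toList.1 hZ)))
        · rw [Finset.length_toList, ← hTc]; exact Finset.card_le_card hS'
        · exact fun Z hZ => hV Z (hT (hS' (Finset.mem_toList.1 hZ)))
        · simp only [just, Bool.or_eq_true, Bool.and_eq_true, decide_eq_true_eq, List.all_eq_true]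
          refine Or.inr ⟨⟨Finset.mem_toList.2 hX, fun Z hZ => hacc Z ?_⟩, h⟩
          have hZ' := Finset.mem_toList.1 hZ
          exact Finset.mem_erase.2 ⟨fun e => hX' (e ▸ hZ'), hT (hS' hZ')⟩
      · exact Or.inl (Finset.mem_erase.2 ⟨e, hY⟩)
    · rw [Finset.sdiff_erase hXA]; simp

theorem exists_nonedge {X : List ℕ} (h : ¬ Yes (X, E, k)) (hk : ¬ X.dedup.length < k) :
    ∃ u ∈ X, ∃ v ∈ X, u ≠ v ∧ (u, v) ∉ E ∧ (v, u) ∉ E := by
  by_contra hne
  apply h
  obtain ⟨T, hT, hc⟩ := Finset.exists_subset_card_eq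
    (show k ≤ X.toFinset.card by rw [List.card_toFinset]; omega)
  refine ⟨T, fun v hv => List.mem_toFinset.1 (hT hv), ⟨fun u hu v hv huv => ?_, hc⟩⟩
  rw [SimpleGraph.fromRel_adj]
  refine ⟨huv, ?_⟩
  by_contra h1
  rw [not_or] at h1
  exact hne ⟨u, List.mem_toFinset.1 (hT hu), v, List.mem_toFinset.1 (hT hv), huv, h1⟩

theorem yes_mono {X Y : List ℕ} (h : X.Sublist Y) (hX : Yes (X, E, k)) : Yes (Y, E, k) := by
  obtain ⟨T, h1, h2⟩ := hX
  exact ⟨T, fun v hv => h.subset (h1 v hv), h2⟩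

theorem length_del_lt {X : List ℕ} {u : ℕ} (h : u ∈ X) : (del X u).length < X.length := by
  have := length_filter_lt (p := fun v => !decide (v = u)) (q := fun _ => true) (by simp) h
    (by simp) rfl
  rwa [List.filter_true] at this

theorem complete {V : List ℕ} {L : ℕ} (hk : 1 ≤ k)
    (ht : ∀ T : Finset (List ℕ), T.card = L + 1 → (∀ Y ∈ T, Y.Sublist V) →
      ∃ S ⊆ T, ∃ S' ⊆ T, ∃ X ∈ S, X ∉ S' ∧ test S.toList S'.toList = true) :
    ∀ (r : ℕ) (A : Finset (List ℕ)), (∀ Y ∈ A, Y.Sublist V ∧ ¬ Yes (Y, E, k) ∧ Y.length ≤ r) →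
      Ext E k test (6 * sz V + 4 + 3 * ((L + 1) * (2 * sz V + 1))) ∅ A (A.card + 3 * L * r) := by
  have ruleA : ∀ (A : Finset (List ℕ)) (X : List ℕ), X.Sublist V → X.dedup.length < k →
      ∃ l : Line, l.1 = X ∧ sz l ≤ 6 * sz V + 4 + 3 * ((L + 1) * (2 * sz V + 1)) ∧
        ∀ acc : List (List ℕ), (∀ Y ∈ A, Y ∈ acc) → just E k test acc l = true :=
    fun A X h1 h2 => ⟨(X, 0, 0, [], []), rfl, sz_line h1 (by simp [sz_nat]) (by simp [sz_nat])
      (by simp) (by simp) (by simp) (by simp), fun acc _ => by simp [just, h2]⟩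
  intro r
  induction r with
  | zero =>
    intro A hA
    refine (Ext.lines _ _ fun X hX => Or.inr (ruleA _ X (hA X hX).1 ?_)).mono (by simp)
    obtain rfl : X = [] := List.eq_nil_of_length_eq_zero (by have := (hA X hX).2.2; omega)
    exact hk
  | succ r ih =>
    intro A hA
    obtain ⟨B, hB, hBc, h1⟩ := prune (E := E) (k := k) ht A.card A le_rfl fun Y hY => (hA Y hY).1
    have h2 : ∀ X : List ℕ, ∃ p : ℕ × ℕ, ¬ Yes (X, E, k) → ¬ X.dedup.length < k →
        p.1 ∈ X ∧ p.2 ∈ X ∧ p.1 ≠ p.2 ∧ (p.1, p.2) ∉ E ∧ (p.2, p.1) ∉ E := by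
      intro X
      by_cases h : ¬ Yes (X, E, k) ∧ ¬ X.dedup.length < k
      · obtain ⟨u, hu, v, hv, h3⟩ := exists_nonedge h.1 h.2
        exact ⟨(u, v), fun _ _ => ⟨hu, hv, h3⟩⟩
      · exact ⟨(0, 0), fun h3 h4 => absurd ⟨h3, h4⟩ h⟩
    choose p hp using h2
    let B' := B.filter fun X => ¬ X.dedup.length < k
    let C := B'.image (fun X => del X (p X).1) ∪ B'.image fun X => del X (p X).2
    have hB' : B'.card ≤ L := (Finset.card_filter_le _ _).trans hBc
    have hC : C.card ≤ 2 * L := by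
      have h3 := Finset.card_union_le (B'.image fun X => del X (p X).1)
        (B'.image fun X => del X (p X).2)
      have h4 : (B'.image fun X => del X (p X).1).card ≤ B'.card := Finset.card_image_le
      have h5 : (B'.image fun X => del X (p X).2).card ≤ B'.card := Finset.card_image_le
      simp only [C]; omega
    have h3 := ih C (by
      have : ∀ X ∈ B', ∀ u ∈ X, (del X u).Sublist V ∧ ¬ Yes (del X u, E, k) ∧
          (del X u).length ≤ r := by
        intro X hX u hu
        obtain ⟨h4, h5, h6⟩ := hA X (hB (Finset.mem_filter.1 hX).1)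
        have h7 : (del X u).Sublist X := List.filter_sublist
        have := length_del_lt hu
        exact ⟨h7.trans h4, fun h => h5 (yes_mono h7 h), by omega⟩
      intro Y hY
      rcases Finset.mem_union.1 hY with hY | hY <;> obtain ⟨X, hX, rfl⟩ := Finset.mem_image.1 hY
      · exact this X hX _ (hp X (hA X (hB (Finset.mem_filter.1 hX).1)).2.1
          (Finset.mem_filter.1 hX).2).1
      · exact this X hX _ (hp X (hA X (hB (Finset.mem_filter.1 hX).1)).2.1
          (Finset.mem_filter.1 hX).2).2.1)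
    have h4 : Ext E k test (6 * sz V + 4 + 3 * ((L + 1) * (2 * sz V + 1))) C B (B \ C).card :=
      Ext.lines _ _ fun X hX => Or.inr (by
        obtain ⟨h5, h6, -⟩ := hA X (hB hX)
        by_cases h7 : X.dedup.length < k
        · exact ruleA _ X h5 h7
        obtain ⟨h8, h9, h10, h11, h12⟩ := hp X h6 h7
        have hX' : X ∈ B' := Finset.mem_filter.2 ⟨hX, h7⟩
        refine ⟨(X, (p X).1, (p X).2, [], []), rfl, sz_line h5 (sz_le_of_mem (h5.subset h8))
          (sz_le_of_mem (h5.subset h9)) (by simp) (by simp) (by simp) (by simp),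
          fun acc hacc => ?_⟩
        have h13 := hacc _ (Finset.mem_union_left _ (Finset.mem_image_of_mem _ hX'))
        have h14 := hacc _ (Finset.mem_union_right _ (Finset.mem_image_of_mem _ hX'))
        simp [just, h10, h11, h12, h13, h14])
    refine ((h3.trans h4).trans h1).mono ?_
    have : (B \ C).card ≤ L := (Finset.card_le_card Finset.sdiff_subset).trans hBc
    have e : 3 * L * (r + 1) = 3 * L * r + 3 * L := by ring
    omega

end System

end Pool.Agent.Lib.MP_ddf912_lc
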